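import Pool.Agent.Helper27.BG.St4

/-!
# Project BG, module IRW: the Irwin-Hall distribution and its moments

`tp n x = x^n` for `x > 0` and `0` otherwise.  The integral of `tp r (y - ∑ θ)` over the unit cube of
dimension `m` is `r!/(m+r)! ∑ (-1)^i C(m,i) tp (m+r) (y-i)` (induction on `m`).
-/

set_option autoImplicit false

noncomputable section

namespace Pool.Agent.Helper27.BG

open Finset MeasureTheory

/-- truncated powers -/
def irwTp (n : ℕ) (x : ℝ) : ℝ := if 0 < x then x ^ n else 0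

theorem irwTp_succ (n : ℕ) (x : ℝ) : irwTp (n + 1) x = (max x 0) ^ (n + 1) := by
  unfold irwTp
  split_ifs with h
  · rw [max_eq_left h.le]
  · rw [max_eq_right (not_lt.1 h)]; simp

theorem irwTp_cont (n : ℕ) : Continuous (irwTp (n + 1)) := by
  have h : irwTp (n + 1) = fun x => (max x 0) ^ (n + 1) := funext fun x => irwTp_succ n x
  rw [h]
  exact (continuous_id.max continuous_const).pow _

theorem irwTp_meas (n : ℕ) : Measurable (irwTp n) := by
  unfold irwTp
  exact Measurable.ite (measurableSet_lt measurable_const measurable_id)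
    (measurable_id.pow_const n) measurable_const

theorem irwTp_nonneg (n : ℕ) (x : ℝ) : 0 ≤ irwTp n x := by
  unfold irwTp
  split_ifs with h
  · exact pow_nonneg h.le n
  · exact le_rfl

theorem irwTp_le (n : ℕ) {y s : ℝ} (hs : 0 ≤ s) : irwTp n (y - s) ≤ |y| ^ n := by
  unfold irwTp
  split_ifs with h
  · refine pow_le_pow_left₀ h.le ?_ n
    have := le_abs_self y
    linarith
  · exact pow_nonneg (abs_nonneg y) n

theorem irwTp_deriv (n : ℕ) {x : ℝ} (hx : x ≠ 0) :
    HasDerivAt (irwTp (n + 1)) ((n + 1 : ℕ) * irwTp n x) x := by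
  rcases lt_or_gt_of_ne hx with h | h
  · have h1 : irwTp n x = 0 := by
      unfold irwTp
      rw [if_neg (not_lt.2 h.le)]
    rw [h1, mul_zero]
    refine (hasDerivAt_const x (0 : ℝ)).congr_of_eventuallyEq ?_
    filter_upwards [Iio_mem_nhds h] with z hz
    unfold irwTp
    rw [if_neg (not_lt.2 (le_of_lt hz))]
  · have h1 : irwTp n x = x ^ n := by
      unfold irwTp
      rw [if_pos h]
    rw [h1]
    have h2 := hasDerivAt_pow (n + 1) x
    rw [Nat.add_sub_cancel] at h2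
    refine h2.congr_of_eventuallyEq ?_
    filter_upwards [Ioi_mem_nhds h] with z hz
    exact if_pos hz

/-- Lebesgue measure on `[0, 1)` -/
def irwMu : Measure ℝ := volume.restrict (Set.Ico (0 : ℝ) 1)

instance : IsFiniteMeasure irwMu := by
  unfold irwMu
  infer_instance

theorem irwMu_pos : ∀ᵐ x ∂irwMu, 0 ≤ x := by
  unfold irwMu
  filter_upwards [ae_restrict_mem measurableSet_Ico] with x hx
  exact hx.1

theorem irwTp_intg (n : ℕ) (z : ℝ) : Integrable (fun x => irwTp n (z - x)) irwMu := by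
  refine Integrable.of_bound ?_ (|z| ^ n) ?_
  · exact ((irwTp_meas n).comp (measurable_const.sub measurable_id)).aestronglyMeasurable
  · filter_upwards [irwMu_pos] with x hx
    rw [Real.norm_of_nonneg (irwTp_nonneg _ _)]
    exact irwTp_le n hx

/-- the integral over one variable -/
theorem irwTp_int (n : ℕ) (z : ℝ) :
    ∫ x, irwTp n (z - x) ∂irwMu = (irwTp (n + 1) z - irwTp (n + 1) (z - 1)) / ((n + 1 : ℕ) : ℝ) := by
  have hn : ((n + 1 : ℕ) : ℝ) ≠ 0 := by positivity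
  have h1 : ∫ x, irwTp n (z - x) ∂irwMu = ∫ x in (0 : ℝ)..1, irwTp n (z - x) := by
    unfold irwMu
    rw [intervalIntegral.integral_of_le zero_le_one, setIntegral_congr_set Ico_ae_eq_Ioc]
  have hI : IntervalIntegrable (fun x => irwTp n (z - x)) volume 0 1 := by
    rw [intervalIntegrable_iff_integrableOn_Ioc_of_le zero_le_one]
    have h2 : IntegrableOn (fun x => irwTp n (z - x)) (Set.Ico (0 : ℝ) 1) volume := irwTp_intg n z
    exact h2.congr_set_ae Ico_ae_eq_Ioc.symm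
  have h3 := integral_eq_of_hasDerivAt_off_countable_of_le
    (fun x => -(irwTp (n + 1) (z - x)) / ((n + 1 : ℕ) : ℝ)) (fun x => irwTp n (z - x))
    zero_le_one (Set.countable_singleton z)
    (((irwTp_cont n).comp (continuous_const.sub continuous_id)).neg.div_const _).continuousOn
    (by
      intro x hx
      have hxz : z - x ≠ 0 := by
        intro h
        exact hx.2 (Set.mem_singleton_iff.2 (by linarith))
      have h4 := irwTp_deriv n hxz
      have h5 : HasDerivAt (fun x : ℝ => z - x) (-1) x := by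
        simpa using (hasDerivAt_id x).const_sub z
      have h6 := ((h4.comp x h5).neg).div_const ((n + 1 : ℕ) : ℝ)
      refine h6.congr_deriv ?_
      field_simp) hI
  rw [h1, h3]
  rw [sub_zero]
  ring

theorem irw_pi_pos (κ : Type) [Fintype κ] :
    ∀ᵐ θ ∂(Measure.pi (fun _ : κ => irwMu)), 0 ≤ ∑ h, θ h := by
  have h1 : Measure.pi (fun _ : κ => irwMu) =
      (Measure.pi (fun _ : κ => (volume : Measure ℝ))).restrict
        (Set.univ.pi fun _ => Set.Ico (0 : ℝ) 1) := by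
    rw [Measure.restrict_pi_pi]
    rfl
  rw [h1]
  filter_upwards [ae_restrict_mem (MeasurableSet.univ_pi fun _ => measurableSet_Ico)] with θ hθ
  exact Finset.sum_nonneg fun h _ => (hθ h (Set.mem_univ h)).1

theorem irw_intg (κ : Type) [Fintype κ] (r : ℕ) (y : ℝ) :
    Integrable (fun θ : κ → ℝ => irwTp r (y - ∑ h, θ h)) (Measure.pi (fun _ : κ => irwMu)) := by
  refine Integrable.of_bound ?_ (|y| ^ r) ?_
  · refine ((irwTp_meas r).comp (measurable_const.sub ?_)).aestronglyMeasurable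
    exact Finset.measurable_sum _ fun h _ => measurable_pi_apply h
  · filter_upwards [irw_pi_pos κ] with θ hθ
    rw [Real.norm_of_nonneg (irwTp_nonneg _ _)]
    exact irwTp_le r hθ

/-- Pascal's rule, summation by parts -/
theorem irw_pascal (m : ℕ) (a : ℕ → ℝ) :
    ∑ i ∈ range (m + 1), (-1) ^ i * (m.choose i : ℝ) * (a i - a (i + 1)) =
      ∑ i ∈ range (m + 2), (-1) ^ i * ((m + 1).choose i : ℝ) * a i := by
  have h1 : ∑ i ∈ range (m + 2), (-1) ^ i * ((m + 1).choose i : ℝ) * a i =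
      (∑ i ∈ range (m + 1), (-1) ^ (i + 1) * ((m + 1).choose (i + 1) : ℝ) * a (i + 1)) + a 0 := by
    rw [Finset.sum_range_succ']
    simp
  have h2 : ∑ i ∈ range (m + 1), (-1) ^ i * (m.choose i : ℝ) * a i =
      (∑ i ∈ range (m + 1), (-1) ^ (i + 1) * (m.choose (i + 1) : ℝ) * a (i + 1)) + a 0 := by
    have h3 : ∑ i ∈ range (m + 2), (-1) ^ i * (m.choose i : ℝ) * a i =
        ∑ i ∈ range (m + 1), (-1) ^ i * (m.choose i : ℝ) * a i := by
      rw [Finset.sum_range_succ, Nat.choose_succ_self]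
      simp
    rw [← h3, Finset.sum_range_succ']
    simp
  have h4 : ∑ i ∈ range (m + 1), (-1) ^ i * (m.choose i : ℝ) * (a i - a (i + 1)) =
      ∑ i ∈ range (m + 1), (-1) ^ i * (m.choose i : ℝ) * a i -
        ∑ i ∈ range (m + 1), (-1) ^ i * (m.choose i : ℝ) * a (i + 1) := by
    rw [← Finset.sum_sub_distrib]
    exact Finset.sum_congr rfl fun i _ => by ring
  rw [h4, h1, h2]
  have h5 : ∑ i ∈ range (m + 1), (-1) ^ (i + 1) * ((m + 1).choose (i + 1) : ℝ) * a (i + 1) =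
      ∑ i ∈ range (m + 1), (-1) ^ (i + 1) * (m.choose (i + 1) : ℝ) * a (i + 1) -
        ∑ i ∈ range (m + 1), (-1) ^ i * (m.choose i : ℝ) * a (i + 1) := by
    rw [← Finset.sum_sub_distrib]
    refine Finset.sum_congr rfl fun i _ => ?_
    rw [Nat.choose_succ_succ]
    push_cast
    ring
  rw [h5]
  ring

/-- the integral over the cube -/
theorem irw_fin (m r : ℕ) : ∀ y : ℝ,
    ∫ θ, irwTp r (y - ∑ h, θ h) ∂(Measure.pi (fun _ : Fin m => irwMu)) =
      (r.factorial : ℝ) / (m + r).factorial *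
        ∑ i ∈ range (m + 1), (-1) ^ i * (m.choose i : ℝ) * irwTp (m + r) (y - i) := by
  induction m with
  | zero =>
    intro y
    have hr : (r.factorial : ℝ) ≠ 0 := by positivity
    simp [hr, measureReal_def, Measure.pi_empty_univ]
  | succ m ih =>
    intro y
    set g : ℝ × (Fin m → ℝ) → ℝ := fun z => irwTp r (y - (z.1 + ∑ h, z.2 h)) with hg
    have hmp := measurePreserving_piFinSuccAbove (α := fun _ : Fin (m + 1) => ℝ)
      (fun _ => irwMu) 0
    have hge : ∀ θ : Fin (m + 1) → ℝ,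
        g (MeasurableEquiv.piFinSuccAbove (fun _ : Fin (m + 1) => ℝ) 0 θ) =
          irwTp r (y - ∑ h, θ h) := by
      intro θ
      rw [Fin.sum_univ_succ]
      rfl
    have h1 : ∫ θ, irwTp r (y - ∑ h, θ h) ∂(Measure.pi (fun _ : Fin (m + 1) => irwMu)) =
        ∫ z, g z ∂(irwMu.prod (Measure.pi (fun _ : Fin m => irwMu))) := by
      have h2 := hmp.integral_comp' (g := g)
      rw [← h2]
      exact integral_congr_ae (Filter.Eventually.of_forall fun θ => (hge θ).symm)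
    have h3 : Integrable g (irwMu.prod (Measure.pi (fun _ : Fin m => irwMu))) := by
      have h4 := hmp.integrable_comp_emb (MeasurableEquiv.measurableEmbedding _) (g := g)
      rw [← h4]
      have h5 : g ∘ (MeasurableEquiv.piFinSuccAbove (fun _ : Fin (m + 1) => ℝ) 0) =
          fun θ => irwTp r (y - ∑ h, θ h) := funext hge
      rw [h5]
      exact irw_intg (Fin (m + 1)) r y
    rw [h1, integral_prod g h3]
    have h6 : ∀ x : ℝ, ∫ θ, g (x, θ) ∂(Measure.pi (fun _ : Fin m => irwMu)) =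
        (r.factorial : ℝ) / (m + r).factorial *
          ∑ i ∈ range (m + 1), (-1) ^ i * (m.choose i : ℝ) * irwTp (m + r) ((y - i) - x) := by
      intro x
      have h7 := ih (y - x)
      have h8 : ∀ i : ℕ, y - x - i = (y - i) - x := fun i => by ring
      simp only [h8] at h7
      rw [← h7]
      refine integral_congr_ae (Filter.Eventually.of_forall fun θ => ?_)
      show irwTp r (y - (x + ∑ h, θ h)) = irwTp r (y - x - ∑ h, θ h)
      congr 1
      ring
    simp only [h6]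
    have h14 : ∫ a, ∑ i ∈ range (m + 1), (-1) ^ i * (m.choose i : ℝ) *
        irwTp (m + r) ((y - i) - a) ∂irwMu = ∑ i ∈ range (m + 1), ∫ a, (-1) ^ i *
          (m.choose i : ℝ) * irwTp (m + r) ((y - i) - a) ∂irwMu :=
      integral_finsetSum _ (fun i _ => (irwTp_intg (m + r) (y - i)).const_mul _)
    rw [integral_const_mul, h14]
    have h9 : ∀ i ∈ range (m + 1), ∫ x, (-1) ^ i * (m.choose i : ℝ) *
        irwTp (m + r) ((y - i) - x) ∂irwMu = (-1) ^ i * (m.choose i : ℝ) *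
          (irwTp (m + r + 1) (y - i) - irwTp (m + r + 1) (y - (i + 1 : ℕ))) /
            ((m + r + 1 : ℕ) : ℝ) := by
      intro i _
      rw [integral_const_mul, irwTp_int]
      have h10 : y - (i : ℝ) - 1 = y - ((i + 1 : ℕ) : ℝ) := by push_cast; ring
      rw [h10]
      ring
    rw [Finset.sum_congr rfl h9, ← Finset.sum_div,
      irw_pascal m (fun i => irwTp (m + r + 1) (y - i))]
    have h11 : m + 1 + r = m + r + 1 := by omega
    rw [h11, Nat.factorial_succ]
    have h12 : ((m + r + 1 : ℕ) : ℝ) ≠ 0 := by positivity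
    have h13 : ((m + r).factorial : ℝ) ≠ 0 := by positivity
    push_cast at h12 ⊢
    field_simp

theorem irw_gen (κ : Type) [Fintype κ] (m r : ℕ) (hm : Fintype.card κ = m) (y : ℝ) :
    ∫ θ, irwTp r (y - ∑ h, θ h) ∂(Measure.pi (fun _ : κ => irwMu)) =
      (r.factorial : ℝ) / (m + r).factorial *
        ∑ i ∈ range (m + 1), (-1) ^ i * (m.choose i : ℝ) * irwTp (m + r) (y - i) := by
  rw [← irw_fin m r y]
  have e : Fin m ≃ κ := (Fintype.equivFinOfCardEq hm).symm
  have hmp := measurePreserving_piCongrLeft (α := fun _ : κ => ℝ) (fun _ => irwMu) e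
  have h1 := hmp.integral_comp' (g := fun θ : κ → ℝ => irwTp r (y - ∑ h, θ h))
  rw [← h1]
  refine integral_congr_ae (Filter.Eventually.of_forall fun θ => ?_)
  show irwTp r (y - ∑ h, MeasurableEquiv.piCongrLeft (fun _ : κ => ℝ) e θ h) =
    irwTp r (y - ∑ h, θ h)
  congr 2
  rw [← Equiv.sum_comp e]
  refine Finset.sum_congr rfl fun i _ => ?_
  rw [MeasurableEquiv.coe_piCongrLeft, Equiv.piCongrLeft_apply_apply]

/-- comparison with `PQ` -/
theorem irw_PQ (m r y : ℕ) (hm : 0 < m) :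
    ∑ i ∈ range (m + 1), (-1) ^ i * (m.choose i : ℝ) * irwTp (m + r) ((y : ℝ) - i) =
      (PQ m r y : ℝ) := by
  unfold PQ
  push_cast
  set N : ℕ := max m y with hN
  have h1 : ∑ i ∈ range (m + 1), (-1) ^ i * (m.choose i : ℝ) * irwTp (m + r) ((y : ℝ) - i) =
      ∑ i ∈ range (N + 1), (-1) ^ i * (m.choose i : ℝ) * irwTp (m + r) ((y : ℝ) - i) := by
    refine Finset.sum_subset (Finset.range_mono (by omega)) ?_
    intro i _ hi
    rw [Finset.mem_range, not_lt] at hi
    rw [Nat.choose_eq_zero_of_lt (by omega)]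
    simp
  have h2 : ∑ i ∈ range (y + 1), (-1) ^ i * (m.choose i : ℝ) * ((y - i : ℕ) : ℝ) ^ (m + r) =
      ∑ i ∈ range (N + 1), (-1) ^ i * (m.choose i : ℝ) * ((y - i : ℕ) : ℝ) ^ (m + r) := by
    refine Finset.sum_subset (Finset.range_mono (by omega)) ?_
    intro i _ hi
    rw [Finset.mem_range, not_lt] at hi
    have h3 : y - i = 0 := by omega
    rw [h3, Nat.cast_zero, zero_pow (by omega), mul_zero]
  rw [h1, h2]
  refine Finset.sum_congr rfl fun i _ => ?_
  congr 1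
  unfold irwTp
  by_cases h : i < y
  · have h3 : (0 : ℝ) < (y : ℝ) - i := by
      have : (i : ℝ) < y := by exact_mod_cast h
      linarith
    rw [if_pos h3, Nat.cast_sub h.le]
  · have h3 : y - i = 0 := by omega
    have h4 : ¬ (0 : ℝ) < (y : ℝ) - i := by
      have : (y : ℝ) ≤ i := by exact_mod_cast not_lt.1 h
      linarith
    rw [if_neg h4, h3, Nat.cast_zero, zero_pow (by omega)]

/-- the unit cube -/
def irwCube (κ : Type) : Set (κ → ℝ) := Set.univ.pi fun _ => Set.Ico (0 : ℝ) 1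

theorem irw_cube (κ : Type) [Fintype κ] :
    (volume : Measure (κ → ℝ)).restrict (irwCube κ) = Measure.pi (fun _ : κ => irwMu) := by
  unfold irwCube irwMu
  rw [volume_pi, Measure.restrict_pi_pi]

theorem irw_cubeM (κ : Type) [Fintype κ] : MeasurableSet (irwCube κ) :=
  MeasurableSet.univ_pi fun _ => measurableSet_Ico

theorem irw_G (κ : Type) [Fintype κ] (m r y : ℕ) (hm : Fintype.card κ = m) (h0 : 0 < m) :
    ∫ θ in irwCube κ, irwTp r ((y : ℝ) - ∑ h, θ h) =
      (r.factorial : ℝ) * (PQ m r y : ℝ) / (m + r).factorial := by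
  rw [irw_cube, irw_gen κ m r hm, irw_PQ m r y h0]
  ring

theorem irw_Gi (κ : Type) [Fintype κ] (r : ℕ) (y : ℝ) :
    IntegrableOn (fun θ : κ → ℝ => irwTp r (y - ∑ h, θ h)) (irwCube κ) volume := by
  unfold IntegrableOn
  rw [irw_cube]
  exact irw_intg κ r y

theorem irw_IH (κ : Type) [Fintype κ] (j : ℕ) (θ : κ → ℝ) :
    θ ∈ IH κ j ↔ θ ∈ irwCube κ ∧ (j : ℝ) ≤ ∑ h, θ h ∧ ∑ h, θ h < j + 1 := by
  unfold IH irwCube
  rw [Set.mem_ofPred_eq]
  have h1 : θ ∈ (Set.univ.pi fun _ : κ => Set.Ico (0 : ℝ) 1) ↔ ∀ h, 0 ≤ θ h ∧ θ h < 1 := by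
    constructor
    · intro hθ h
      exact hθ h (Set.mem_univ h)
    · intro hθ h _
      exact hθ h
  rw [h1]
  constructor
  · rintro ⟨h2, h3⟩
    have h4 : 0 ≤ ∑ h, θ h := Finset.sum_nonneg fun h _ => (h2 h).1
    rw [Nat.floor_eq_iff h4] at h3
    exact ⟨h2, h3⟩
  · rintro ⟨h2, h3⟩
    have h4 : 0 ≤ ∑ h, θ h := Finset.sum_nonneg fun h _ => (h2 h).1
    exact ⟨h2, (Nat.floor_eq_iff h4).2 h3⟩

theorem irw_IHm (κ : Type) [Fintype κ] (j : ℕ) : MeasurableSet (IH κ j) := by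
  have hs : Measurable (fun θ : κ → ℝ => ∑ h, θ h) :=
    Finset.measurable_sum _ fun h _ => measurable_pi_apply h
  have h1 : IH κ j = irwCube κ ∩ ({θ | (j : ℝ) ≤ ∑ h, θ h} ∩ {θ | ∑ h, θ h < (j : ℝ) + 1}) := by
    ext θ
    rw [irw_IH]
    rfl
  rw [h1]
  exact (irw_cubeM κ).inter ((measurableSet_le measurable_const hs).inter
    (measurableSet_lt hs measurable_const))

/-- transfer of the integral over a cell to the cube -/
theorem irw_tr (κ : Type) [Fintype κ] (j : ℕ) (g φ : ℝ → ℝ)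
    (h1 : ∀ s : ℝ, s < j → φ s = 0) (h2 : ∀ s : ℝ, j ≤ s → s < j + 1 → φ s = g s)
    (h3 : ∀ s : ℝ, (j : ℝ) + 1 ≤ s → φ s = 0) :
    ∫ θ in IH κ j, g (∑ h, θ h) = ∫ θ in irwCube κ, φ (∑ h, θ h) := by
  have hsub : IH κ j ⊆ irwCube κ := fun θ hθ => ((irw_IH κ j θ).1 hθ).1
  rw [setIntegral_eq_of_subset_of_forall_sdiff_eq_zero (irw_cubeM κ) hsub (by
    rintro θ ⟨hθ, hn⟩
    rw [irw_IH] at hn
    by_cases h : (j : ℝ) ≤ ∑ h, θ h
    · refine h3 _ ?_
      by_contra hcon
      exact hn ⟨hθ, h, not_le.1 hcon⟩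
    · exact h1 _ (not_le.1 h))]
  refine setIntegral_congr_fun (irw_IHm κ j) fun θ hθ => ?_
  have h4 := (irw_IH κ j θ).1 hθ
  exact (h2 _ h4.2.1 h4.2.2).symm

theorem hIrw : StIrw := by
  intro κ _ _ m j hm h0
  have hj1 : ((j + 1 : ℕ) : ℝ) = (j : ℝ) + 1 := by push_cast; ring
  have t0p : ∀ x : ℝ, 0 < x → irwTp 0 x = 1 := fun x hx => by
    unfold irwTp; rw [if_pos hx, pow_zero]
  have t1p : ∀ x : ℝ, 0 < x → irwTp 1 x = x := fun x hx => by
    unfold irwTp; rw [if_pos hx, pow_one]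
  have t2p : ∀ x : ℝ, 0 < x → irwTp 2 x = x ^ 2 := fun x hx => by
    unfold irwTp; rw [if_pos hx]
  have tn : ∀ n (x : ℝ), x ≤ 0 → irwTp n x = 0 := fun n x hx => by
    unfold irwTp; rw [if_neg (not_lt.2 hx)]
  refine ⟨?_, ?_, ?_⟩
  · have h1 : (volume (IH κ j)).toReal = ∫ θ in IH κ j, (fun _ : ℝ => (1 : ℝ)) (∑ h, θ h) := by
      simp only [integral_const, smul_eq_mul, mul_one]
      rw [measureReal_restrict_apply_univ]
      rfl
    rw [h1, irw_tr κ j (fun _ => 1)
      (fun s => irwTp 0 (((j + 1 : ℕ) : ℝ) - s) - irwTp 0 ((j : ℝ) - s)) ?_ ?_ ?_]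
    · rw [integral_sub (irw_Gi κ 0 _) (irw_Gi κ 0 _), irw_G κ m 0 (j + 1) hm h0,
        irw_G κ m 0 j hm h0]
      simp only [Nat.factorial_zero, Nat.cast_one, one_mul, add_zero]
      push_cast
      ring
    · intro s hs
      show irwTp 0 (((j + 1 : ℕ) : ℝ) - s) - irwTp 0 ((j : ℝ) - s) = 0
      rw [hj1, t0p _ (by linarith), t0p _ (by linarith), sub_self]
    · intro s hs hs'
      show irwTp 0 (((j + 1 : ℕ) : ℝ) - s) - irwTp 0 ((j : ℝ) - s) = 1
      rw [hj1, t0p _ (by linarith), tn 0 _ (by linarith), sub_zero]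
    · intro s hs
      show irwTp 0 (((j + 1 : ℕ) : ℝ) - s) - irwTp 0 ((j : ℝ) - s) = 0
      rw [hj1, tn 0 _ (by linarith), tn 0 _ (by linarith), sub_self]
  · rw [irw_tr κ j (fun s => s - j)
      (fun s => irwTp 0 (((j + 1 : ℕ) : ℝ) - s) -
        (irwTp 1 (((j + 1 : ℕ) : ℝ) - s) - irwTp 1 ((j : ℝ) - s))) ?_ ?_ ?_]
    · have i1 := irw_Gi κ 1 ((j + 1 : ℕ) : ℝ)
      have i2 := irw_Gi κ 1 (j : ℝ)
      have i12 : Integrable (fun θ : κ → ℝ => irwTp 1 (((j + 1 : ℕ) : ℝ) - ∑ h, θ h) -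
          irwTp 1 ((j : ℝ) - ∑ h, θ h)) (volume.restrict (irwCube κ)) := i1.sub i2
      rw [integral_sub (irw_Gi κ 0 _) i12, integral_sub i1 i2,
        irw_G κ m 0 (j + 1) hm h0, irw_G κ m 1 (j + 1) hm h0, irw_G κ m 1 j hm h0]
      simp only [Nat.factorial_zero, Nat.factorial_one, Nat.cast_one, one_mul, add_zero]
      push_cast
      ring
    · intro s hs
      show irwTp 0 (((j + 1 : ℕ) : ℝ) - s) -
        (irwTp 1 (((j + 1 : ℕ) : ℝ) - s) - irwTp 1 ((j : ℝ) - s)) = 0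
      rw [hj1, t0p _ (by linarith), t1p _ (by linarith), t1p _ (by linarith)]
      ring
    · intro s hs hs'
      show irwTp 0 (((j + 1 : ℕ) : ℝ) - s) -
        (irwTp 1 (((j + 1 : ℕ) : ℝ) - s) - irwTp 1 ((j : ℝ) - s)) = s - j
      rw [hj1, t0p _ (by linarith), t1p _ (by linarith), tn 1 _ (by linarith)]
      ring
    · intro s hs
      show irwTp 0 (((j + 1 : ℕ) : ℝ) - s) -
        (irwTp 1 (((j + 1 : ℕ) : ℝ) - s) - irwTp 1 ((j : ℝ) - s)) = 0
      rw [hj1, tn 0 _ (by linarith), tn 1 _ (by linarith), tn 1 _ (by linarith)]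
      ring
  · rw [irw_tr κ j (fun s => (s - j) ^ 2)
      (fun s => irwTp 0 (((j + 1 : ℕ) : ℝ) - s) - 2 * irwTp 1 (((j + 1 : ℕ) : ℝ) - s) +
        (irwTp 2 (((j + 1 : ℕ) : ℝ) - s) - irwTp 2 ((j : ℝ) - s))) ?_ ?_ ?_]
    · have i0 := irw_Gi κ 0 ((j + 1 : ℕ) : ℝ)
      have i1 := (irw_Gi κ 1 ((j + 1 : ℕ) : ℝ)).const_mul 2
      have i2 := irw_Gi κ 2 ((j + 1 : ℕ) : ℝ)
      have i3 := irw_Gi κ 2 (j : ℝ)
      have i01 : Integrable (fun θ : κ → ℝ => irwTp 0 (((j + 1 : ℕ) : ℝ) - ∑ h, θ h) -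
          2 * irwTp 1 (((j + 1 : ℕ) : ℝ) - ∑ h, θ h)) (volume.restrict (irwCube κ)) := i0.sub i1
      have i23 : Integrable (fun θ : κ → ℝ => irwTp 2 (((j + 1 : ℕ) : ℝ) - ∑ h, θ h) -
          irwTp 2 ((j : ℝ) - ∑ h, θ h)) (volume.restrict (irwCube κ)) := i2.sub i3
      rw [integral_add i01 i23, integral_sub i0 i1, integral_sub i2 i3,
        integral_const_mul, irw_G κ m 0 (j + 1) hm h0, irw_G κ m 1 (j + 1) hm h0,
        irw_G κ m 2 (j + 1) hm h0, irw_G κ m 2 j hm h0]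
      simp only [Nat.factorial_zero, Nat.factorial_one, Nat.factorial_two, Nat.cast_one, one_mul,
        add_zero]
      push_cast
      ring
    · intro s hs
      show irwTp 0 (((j + 1 : ℕ) : ℝ) - s) - 2 * irwTp 1 (((j + 1 : ℕ) : ℝ) - s) +
        (irwTp 2 (((j + 1 : ℕ) : ℝ) - s) - irwTp 2 ((j : ℝ) - s)) = 0
      rw [hj1, t0p _ (by linarith), t1p _ (by linarith), t2p _ (by linarith),
        t2p _ (by linarith)]
      ring
    · intro s hs hs'
      show irwTp 0 (((j + 1 : ℕ) : ℝ) - s) - 2 * irwTp 1 (((j + 1 : ℕ) : ℝ) - s) +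
        (irwTp 2 (((j + 1 : ℕ) : ℝ) - s) - irwTp 2 ((j : ℝ) - s)) = (s - j) ^ 2
      rw [hj1, t0p _ (by linarith), t1p _ (by linarith), t2p _ (by linarith),
        tn 2 _ (by linarith)]
      ring
    · intro s hs
      show irwTp 0 (((j + 1 : ℕ) : ℝ) - s) - 2 * irwTp 1 (((j + 1 : ℕ) : ℝ) - s) +
        (irwTp 2 (((j + 1 : ℕ) : ℝ) - s) - irwTp 2 ((j : ℝ) - s)) = 0
      rw [hj1, tn 0 _ (by linarith), tn 1 _ (by linarith), tn 2 _ (by linarith),
        tn 2 _ (by linarith)]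
      ring

end Pool.Agent.Helper27.BG
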